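import Pool.Agent.W886.RU.Fin

/-!
# How many elements of a random set have to be changed to make all spectra rudimentary?

Rudimentary sets and spectra are relativized to a set `A` of natural numbers: in the bounded
formulas the atomic formulas `t ∈ A` are allowed for all terms `t`; and a sentence may use, besides
the symbols of its vocabulary (interpreted arbitrarily), the symbols for the usual order on
`{0, ..., n - 1}` and for the relations `a 0 + a 1 * n + ... + a (k - 1) * n ^ (k - 1) ∈ A`.

The number of changes is measured by a function `g`: the set `A` is obtained from `O` by changing,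
for all large `N`, at most `g N` of the numbers below `N`. If `g N ≤ N ^ ε` for every `ε > 0` and
infinitely many `N`, then, for almost every set `O` and for all sets `A` that are obtained from `O`
by at most `g` changes, however these changes depend on `O`, some spectrum relative to `A` is not
rudimentary relative to `A`, not even up to finitely many numbers. Otherwise every set `O` can be
changed, by at most `g` changes, into a set `A` such that all spectra relative to `A` are
rudimentary relative to `A`.

So the threshold is exactly at the functions `N ^ ε`.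
-/

set_option autoImplicit false

namespace Pool.Agent.Results.MP_023469_lc.ChangedElements

open Pool.Agent.W886.RU MeasureTheory Filter

theorem result (g : ℕ → ℝ) :
    ((∀ ε : ℝ, 0 < ε → ∃ᶠ N : ℕ in atTop, g N ≤ (N : ℝ) ^ ε) →
      ∀ᵐ O ∂randomSet, ∀ A : ℕ → Bool, Close g O A →
        ∃ φ : (Voc.sum OVoc).Sentence, ∀ P : ℕ → Prop, (∀ᶠ n in atTop, P n ↔ InSpec A φ n) →
          ¬ Delta0 A 1 (fun v => P (v 0))) ∧
    ((¬ ∀ ε : ℝ, 0 < ε → ∃ᶠ N : ℕ in atTop, g N ≤ (N : ℝ) ^ ε) →
      ∀ O : ℕ → Bool, ∃ A : ℕ → Bool, Close g O A ∧
        ∀ φ : (Voc.sum OVoc).Sentence, Delta0 A 1 (fun v => InSpec A φ (v 0))) := by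
  refine ⟨fun hg => ?_, fun hg O => close_spec hg O⟩
  obtain ⟨φ, hφ⟩ := par_spec
  filter_upwards [par_far hg] with O hO A hA
  refine ⟨φ, fun P hP => hO A hA P ?_⟩
  filter_upwards [hP, eventually_ge_atTop 3] with n h1 h2
  rw [h1, hφ A n h2]

end Pool.Agent.Results.MP_023469_lc.ChangedElements
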